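import Pool.Agent.Helper61.QE.St1

/-!
# Project QE: module INT (rules for `Intw`)
-/

set_option autoImplicit false

namespace Pool.Agent.Helper44.QE

open Pool.Agent.Helper68.QC Pool.Agent.Helper61.QE

private theorem comp' (A B C : SL) (f g : ℂ → ℂ) (h1 : Intw A B f) (h2 : Intw B C g) :
    Intw A C (fun z => g (f z)) := by
  obtain ⟨a1, a2, a3, a4⟩ := h1
  obtain ⟨b1, b2, b3, b4⟩ := h2
  refine ⟨fun z => (a1 z).trans (b1 (f z)), ?_, a3.trans b3, ?_⟩
  · intro z hz
    show g (f (mob A z)) = _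
    rw [a2 z hz, b2 (f z) (fun h => hz ((a1 z).2 h))]
  · intro hA
    show g (f (A 0 0 / A 1 0)) = _
    rw [a4 hA, b4 (fun h => hA (a3.2 h))]

private theorem symm' (A B : SL) (f : ℂ ≃ₜ ℂ) (h1 : Intw A B f) : Intw B A f.symm := by
  obtain ⟨a1, a2, a3, a4⟩ := h1
  refine ⟨?_, ?_, a3.symm, ?_⟩
  · intro z
    have h := a1 (f.symm z)
    rw [f.apply_symm_apply] at h
    exact h.symm
  · intro z hz
    have h := a1 (f.symm z)
    rw [f.apply_symm_apply] at h
    have h2 := a2 (f.symm z) (fun h0 => hz (h.1 h0))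
    rw [f.apply_symm_apply] at h2
    rw [← h2, f.symm_apply_apply]
  · intro hB
    rw [← a4 (fun h => hB (a3.1 h)), f.symm_apply_apply]

theorem pINT : Pool.Agent.Helper61.QE.StINT := by
  refine ⟨comp', symm', ?_⟩
  intro A B C f g h1 h2
  have h3 := comp' B A C f.symm (fun z => g (f z)) (symm' A B f h1) h2
  have h4 : (fun z => (fun z => g (f z)) (f.symm z)) = g := by
    funext z
    show g (f (f.symm z)) = g z
    rw [f.apply_symm_apply]
  rwa [h4] at h3

end Pool.Agent.Helper44.QE
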